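import Pool.Agent.Y472.K.DefsX
import Pool.Agent.W366.FELat
import Pool.Agent.W571.FE.EM

/-!
# Lattice sums against integrals in several variables (`S_MLT`)

The one-variable statement `S_LAT` is applied to one variable at a time.
-/

set_option autoImplicit false

namespace Pool.Agent.Y849.TKX

open Finset Filter Topology MeasureTheory
open scoped Real

/-- the box -/
def bo {ι : Type} (ws : ι → ℝ) (ρ : ℝ) : Set (ι → ℝ) := {w | ∀ i, |w i - ws i| ≤ ρ}

/-- lattice points of one variable -/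
noncomputable def lt1 (a ρ : ℝ) (N : ℕ) : Finset ℕ :=
  (range (⌈(a + ρ) * N⌉₊ + 1)).filter fun d : ℕ => |(d : ℝ) / N - a| ≤ ρ

theorem mem_lt1 {a ρ : ℝ} {N : ℕ} (hN : 0 < N) (d : ℕ) :
    d ∈ lt1 a ρ N ↔ |(d : ℝ) / N - a| ≤ ρ := by
  unfold lt1
  rw [mem_filter, mem_range, and_iff_right_iff_imp]
  intro h
  have hN' : (0:ℝ) < N := by exact_mod_cast hN
  have h1 : (d : ℝ) / N ≤ a + ρ := by linarith [(abs_le.mp h).2]
  have h2 : (d : ℝ) ≤ (a + ρ) * N := by rwa [div_le_iff₀ hN'] at h1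
  have h3 : (d : ℝ) ≤ ⌈(a + ρ) * N⌉₊ := h2.trans (Nat.le_ceil _)
  have : d ≤ ⌈(a + ρ) * N⌉₊ := by exact_mod_cast h3
  omega

theorem card_lt1 {a ρ : ℝ} {N : ℕ} (hN : 0 < N) (ha : 0 ≤ a + ρ) :
    ((lt1 a ρ N).card : ℝ) ≤ (a + ρ + 2) * N := by
  have hN' : (1:ℝ) ≤ N := by exact_mod_cast hN
  have h1 : (lt1 a ρ N).card ≤ ⌈(a + ρ) * N⌉₊ + 1 := by
    unfold lt1
    exact (card_filter_le _ _).trans (by rw [card_range])
  have h2 : ((lt1 a ρ N).card : ℝ) ≤ ⌈(a + ρ) * N⌉₊ + 1 := by exact_mod_cast h1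
  have h3 : (⌈(a + ρ) * N⌉₊ : ℝ) < (a + ρ) * N + 1 := Nat.ceil_lt_add_one (by positivity)
  nlinarith

theorem bo_eq {ι : Type} (ws : ι → ℝ) (ρ : ℝ) :
    bo ws ρ = Set.univ.pi fun i => Set.Icc (ws i - ρ) (ws i + ρ) := by
  ext w
  simp only [bo, Set.mem_ofPred_eq, Set.mem_univ_pi, Set.mem_Icc]
  refine forall_congr' fun i => ?_
  rw [abs_le]
  constructor
  · rintro ⟨h1, h2⟩
    constructor <;> linarith
  · rintro ⟨h1, h2⟩
    constructor <;> linarith

theorem compact_bo {ι : Type} (ws : ι → ℝ) (ρ : ℝ) : IsCompact (bo ws ρ) := by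
  rw [bo_eq]
  exact isCompact_univ_pi fun i => isCompact_Icc

theorem cast_cons {n : ℕ} (x : ℝ) (w : Fin n → ℝ) :
    (fun i => (((Fin.cons x w : Fin (n + 1) → ℝ) i : ℝ) : ℂ)) =
      (Fin.cons (x : ℂ) (fun i => (w i : ℂ)) : Fin (n + 1) → ℂ) := by
  funext i
  refine Fin.cases ?_ (fun j => ?_) i
  · simp
  · simp

theorem cons_mem_bo {n : ℕ} {ws : Fin (n + 1) → ℝ} {ρ : ℝ} (x : ℝ) (w : Fin n → ℝ) :
    (Fin.cons x w : Fin (n + 1) → ℝ) ∈ bo ws ρ ↔
      x ∈ Set.Icc (ws 0 - ρ) (ws 0 + ρ) ∧ w ∈ bo (Fin.tail ws) ρ := by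
  rw [bo_eq, bo_eq]
  simp only [Set.mem_univ_pi]
  rw [Fin.forall_fin_succ]
  simp [Fin.tail]

/-- the integral over the first variable -/
theorem int_cons {n : ℕ} (ws : Fin (n + 1) → ℝ) (ρ : ℝ) (hρ : 0 < ρ)
    (g : (Fin (n + 1) → ℝ) → ℂ) (hg : ContinuousOn g (bo ws ρ)) :
    IntegrableOn (fun w' : Fin n → ℝ => ∫ x in (ws 0 - ρ)..(ws 0 + ρ), g (Fin.cons x w'))
      (bo (Fin.tail ws) ρ) ∧
    ∫ w in bo ws ρ, g w = ∫ w' in bo (Fin.tail ws) ρ, ∫ x in (ws 0 - ρ)..(ws 0 + ρ),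
      g (Fin.cons x w') := by
  set e := MeasurableEquiv.piFinSuccAbove (fun _ : Fin (n + 1) => ℝ) 0 with he
  have hp : MeasurePreserving e := volume_preserving_piFinSuccAbove (fun _ : Fin (n + 1) => ℝ) 0
  have hes : ∀ p : ℝ × (Fin n → ℝ), e.symm p = (Fin.cons p.1 p.2 : Fin (n + 1) → ℝ) := by
    intro p
    rw [he, MeasurableEquiv.piFinSuccAbove_symm_apply]
    simp [Fin.insertNthEquiv]
  have hpre : e.symm ⁻¹' (bo ws ρ) = Set.Icc (ws 0 - ρ) (ws 0 + ρ) ×ˢ bo (Fin.tail ws) ρ := by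
    ext p
    rw [Set.mem_preimage, hes, cons_mem_bo, Set.mem_prod]
  have hcont : ContinuousOn (fun p : ℝ × (Fin n → ℝ) => g (Fin.cons p.1 p.2))
      (Set.Icc (ws 0 - ρ) (ws 0 + ρ) ×ˢ bo (Fin.tail ws) ρ) := by
    refine hg.comp (f := fun p : ℝ × (Fin n → ℝ) => (Fin.cons p.1 p.2 : Fin (n + 1) → ℝ)) ?_ ?_
    · refine Continuous.continuousOn ?_
      refine continuous_pi fun i => ?_
      refine Fin.cases ?_ (fun j => ?_) i
      · simpa using continuous_fst
      · simp only [Fin.cons_succ]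
        exact (continuous_apply j).comp continuous_snd
    · intro p hp
      rw [Set.mem_prod] at hp
      exact (cons_mem_bo p.1 p.2).mpr hp
  have hcomp : IsCompact (Set.Icc (ws 0 - ρ) (ws 0 + ρ) ×ˢ bo (Fin.tail ws) ρ) :=
    isCompact_Icc.prod (compact_bo _ _)
  have hint : IntegrableOn (fun p : ℝ × (Fin n → ℝ) => g (Fin.cons p.1 p.2))
      (Set.Icc (ws 0 - ρ) (ws 0 + ρ) ×ˢ bo (Fin.tail ws) ρ) (volume.prod volume) :=
    hcont.integrableOn_compact hcomp
  have hint2 : IntegrableOn (fun p : (Fin n → ℝ) × ℝ => g (Fin.cons p.2 p.1))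
      (bo (Fin.tail ws) ρ ×ˢ Set.Icc (ws 0 - ρ) (ws 0 + ρ)) (volume.prod volume) := by
    have := hint
    rw [IntegrableOn, ← Measure.prod_restrict] at this ⊢
    exact this.swap
  have hIcc : ∀ w' : Fin n → ℝ, (∫ x in (ws 0 - ρ)..(ws 0 + ρ), g (Fin.cons x w')) =
      ∫ x in Set.Icc (ws 0 - ρ) (ws 0 + ρ), g (Fin.cons x w') := by
    intro w'
    rw [intervalIntegral.integral_of_le (by linarith), integral_Icc_eq_integral_Ioc]
  simp_rw [hIcc]
  refine ⟨?_, ?_⟩
  · rw [IntegrableOn, ← Measure.prod_restrict] at hint2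
    exact hint2.integral_prod_left
  · have h1 := hp.symm.setIntegral_preimage_emb e.symm.measurableEmbedding g (bo ws ρ)
    rw [← h1, hpre]
    simp_rw [hes]
    have h2 := setIntegral_prod_swap (μ := (volume : Measure ℝ))
      (ν := (volume : Measure (Fin n → ℝ))) (Set.Icc (ws 0 - ρ) (ws 0 + ρ))
      (bo (Fin.tail ws) ρ) (fun p : ℝ × (Fin n → ℝ) => g (Fin.cons p.1 p.2))
    have h3 := setIntegral_prod (μ := (volume : Measure (Fin n → ℝ))) (ν := (volume : Measure ℝ))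
      (fun p : (Fin n → ℝ) × ℝ => g (Fin.cons p.2 p.1)) hint2
    rw [← h3]
    exact h2.symm

/-- the sum over the first variable -/
theorem sum_cons {n : ℕ} (s : Fin (n + 1) → Finset ℕ) (G : (Fin (n + 1) → ℕ) → ℂ) :
    ∑ k ∈ Fintype.piFinset s, G k =
      ∑ d ∈ s 0, ∑ k' ∈ Fintype.piFinset (Fin.tail s), G (Fin.cons d k') := by
  rw [← sum_product']
  refine sum_nbij' (fun k => (k 0, Fin.tail k)) (fun p => Fin.cons p.1 p.2) ?_ ?_ ?_ ?_ ?_
  · intro k hk
    rw [Fintype.mem_piFinset] at hk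
    rw [mem_product, Fintype.mem_piFinset]
    exact ⟨hk 0, fun i => hk i.succ⟩
  · intro p hp
    rw [mem_product, Fintype.mem_piFinset] at hp
    rw [Fintype.mem_piFinset, Fin.forall_fin_succ]
    exact ⟨by simpa using hp.1, fun i => by simpa [Fin.tail] using hp.2 i⟩
  · intro k _
    exact Fin.cons_self_tail k
  · intro p _
    simp
  · intro k _
    simp

/-- the hypotheses -/
structure Hy {ι : Type} [Fintype ι] [DecidableEq ι] (ws : ι → ℝ) (ρ c : ℝ) (N : ℕ)
    (F : (ι → ℂ) → ℂ) (M : ℝ) : Prop where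
  cont : ContinuousOn (fun w : ι → ℝ => F fun i => (w i : ℂ)) (bo ws ρ)
  bd : ∀ w : ι → ℝ, (∀ i, |w i - ws i| < 2 * ρ) → ∀ (i : ι) (y : ℝ), |y| < 1 / √(N : ℝ) →
      DifferentiableAt ℂ (fun z : ℂ => F (Function.update (fun i => (w i : ℂ)) i z))
        (w i + y * Complex.I) ∧
      ‖F (Function.update (fun i => (w i : ℂ)) i (w i + y * Complex.I))‖ ≤
        M * Real.exp (-(c * N * ∑ j, (w j - ws j) ^ 2))

theorem Hy.slice {n : ℕ} {ws : Fin (n + 1) → ℝ} {ρ c : ℝ} {N : ℕ}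
    {F : (Fin (n + 1) → ℂ) → ℂ} {M : ℝ} (hM : 0 ≤ M) (hρ : 0 < ρ) (hc : 0 < c)
    (h : Hy ws ρ c N F M) (x : ℝ)
    (hx : |x - ws 0| ≤ ρ) :
    Hy (Fin.tail ws) ρ c N (fun v : Fin n → ℂ => F (Fin.cons (x : ℂ) v)) M := by
  constructor
  · have h1 := h.cont
    have h2 : ContinuousOn (fun w : Fin n → ℝ =>
        (fun w : Fin (n + 1) → ℝ => F fun i => (w i : ℂ)) (Fin.cons x w)) (bo (Fin.tail ws) ρ) := by
      refine h1.comp (f := fun w : Fin n → ℝ => (Fin.cons x w : Fin (n + 1) → ℝ)) ?_ ?_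
      · refine Continuous.continuousOn ?_
        refine continuous_pi fun i => ?_
        refine Fin.cases ?_ (fun j => ?_) i
        · simpa using continuous_const
        · simpa using continuous_apply j
      · intro w hw
        refine (cons_mem_bo x w).mpr ⟨?_, hw⟩
        rw [abs_le] at hx
        constructor <;> linarith [hx.1, hx.2]
    refine h2.congr fun w _ => ?_
    simp only [cast_cons]
  · intro w hw i y hy
    have hw' : ∀ j : Fin (n + 1), |(Fin.cons x w : Fin (n + 1) → ℝ) j - ws j| < 2 * ρ := by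
      rw [Fin.forall_fin_succ]
      refine ⟨?_, fun j => ?_⟩
      · simpa using lt_of_le_of_lt hx (by linarith)
      · simpa [Fin.tail] using hw j
    have h1 := h.bd (Fin.cons x w) hw' i.succ y hy
    rw [cast_cons] at h1
    simp only [Fin.cons_succ, ← Fin.cons_update] at h1
    refine ⟨h1.1, h1.2.trans ?_⟩
    refine mul_le_mul_of_nonneg_left (Real.exp_le_exp.mpr ?_) hM
    rw [Fin.sum_univ_succ]
    simp only [Fin.cons_zero, Fin.cons_succ, Fin.tail]
    have h3 : 0 ≤ c * N * (x - ws 0) ^ 2 := by positivity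
    nlinarith

/-- the case of `Fin n` -/
theorem mltFin (n : ℕ) : ∀ (ws : Fin n → ℝ) (ρ c : ℝ), 0 < ρ →
    (∀ i, 2 * ρ ≤ ws i) → 0 < c → ∀ K : ℕ, ∃ C : ℝ, 0 ≤ C ∧ ∀ᶠ N : ℕ in atTop,
    ∀ (F : (Fin n → ℂ) → ℂ) (M : ℝ), 0 ≤ M → Hy ws ρ c N F M →
      ‖(∑ k ∈ Fintype.piFinset (fun i => lt1 (ws i) ρ N), F fun i => (((k i : ℝ) / N : ℝ) : ℂ)) -
        (N : ℂ) ^ n * ∫ w in bo ws ρ, F fun i => (w i : ℂ)‖ ≤ C * M / (N : ℝ) ^ K := by
  induction n with
  | zero =>
    intro ws ρ c hρ hws hc K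
    refine ⟨0, le_rfl, Eventually.of_forall fun N F M hM hF => ?_⟩
    have hb : bo ws ρ = Set.univ := by
      ext w
      simp [bo]
    rw [hb, setIntegral_univ]
    have h1 : (∫ w : Fin 0 → ℝ, F fun i => (w i : ℂ)) = F (fun i => i.elim0) := by
      have h2 : ∀ w : Fin 0 → ℝ, (fun i : Fin 0 => ((w i : ℝ) : ℂ)) = fun i => i.elim0 :=
        fun w => Subsingleton.elim _ _
      have h5 : (volume : Measure (Fin 0 → ℝ)).real Set.univ = 1 := by
        rw [measureReal_def, volume_pi, Measure.pi_of_empty]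
        simp
      simp_rw [h2]
      rw [integral_const, h5, one_smul]
    have h3 : ∑ k ∈ Fintype.piFinset (fun i => lt1 (ws i) ρ N),
        (F fun i => (((k i : ℝ) / N : ℝ) : ℂ)) = F (fun i => i.elim0) := by
      have h4 : Fintype.piFinset (fun i => lt1 (ws i) ρ N) = {fun i => i.elim0} := by
        ext k
        simp only [Fintype.mem_piFinset, IsEmpty.forall_iff, mem_singleton, true_iff]
        exact Subsingleton.elim _ _
      rw [h4, sum_singleton]
      congr 1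
      exact Subsingleton.elim _ _
    rw [h1, h3]
    simp
  | succ n ih =>
    intro ws ρ c hρ hws hc K
    obtain ⟨C₁, hC₁, h₁⟩ := ih (Fin.tail ws) ρ c hρ (fun i => hws i.succ) hc (K + 1)
    obtain ⟨C₂, ε₀, hε₀, h₂⟩ := Pool.Agent.W366.FELat.lat Pool.Agent.W571.FE.em (ws 0) ρ c hρ
      (hws 0) hc (K + n)
    have hws0 : 0 ≤ ws 0 + ρ := by linarith [hws 0]
    set V : ℝ := (volume : Measure (Fin n → ℝ)).real (bo (Fin.tail ws) ρ) with hV
    have hV0 : 0 ≤ V := measureReal_nonneg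
    refine ⟨(ws 0 + ρ + 2) * C₁ + |C₂| * V, by positivity, ?_⟩
    filter_upwards [h₁, eventually_gt_atTop 0, eventually_ge_atTop ⌈1 / ε₀⌉₊] with N hN₁ hN0 hNε
      F M hM hF
    have hNr : (0:ℝ) < N := by exact_mod_cast hN0
    have hNc : (N : ℂ) ≠ 0 := by exact_mod_cast hN0.ne'
    have hε : 1 / (N : ℝ) ≤ ε₀ := by
      rw [div_le_iff₀ hNr]
      have h3 : 1 / ε₀ ≤ N := (Nat.le_ceil _).trans (by exact_mod_cast hNε)
      rw [div_le_iff₀ hε₀] at h3
      linarith
    -- the three quantities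
    set s : Finset ℕ := lt1 (ws 0) ρ N with hs
    set g : (Fin (n + 1) → ℝ) → ℂ := fun w => F fun i => (w i : ℂ) with hg
    have hgc : ContinuousOn g (bo ws ρ) := hF.cont
    obtain ⟨hI, hIeq⟩ := int_cons ws ρ hρ g hgc
    have hgcons : ∀ (x : ℝ) (w : Fin n → ℝ), g (Fin.cons x w) =
        F (Fin.cons (x : ℂ) fun i => (w i : ℂ)) := by
      intro x w
      rw [hg]
      simp only [cast_cons]
    have hmem : ∀ d ∈ s, |(d : ℝ) / N - ws 0| ≤ ρ := fun d hd => (mem_lt1 hN0 d).mp hd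
    have hA : (∑ k ∈ Fintype.piFinset (fun i => lt1 (ws i) ρ N),
        F fun i => (((k i : ℝ) / N : ℝ) : ℂ)) =
        ∑ d ∈ s, ∑ k ∈ Fintype.piFinset (fun i => lt1 (Fin.tail ws i) ρ N),
          F (Fin.cons (((d : ℝ) / N : ℝ) : ℂ) fun i => (((k i : ℝ) / N : ℝ) : ℂ)) := by
      rw [sum_cons]
      refine sum_congr rfl fun d _ => sum_congr rfl fun k _ => ?_
      congr 1
      funext i
      refine Fin.cases ?_ (fun j => ?_) i
      · simp
      · simp
    have hsl : ∀ d ∈ s, Hy (Fin.tail ws) ρ c N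
        (fun v : Fin n → ℂ => F (Fin.cons (((d : ℝ) / N : ℝ) : ℂ) v)) M :=
      fun d hd => hF.slice hM hρ hc _ (hmem d hd)
    have hB : ∀ d ∈ s, IntegrableOn (fun w : Fin n → ℝ =>
        F (Fin.cons (((d : ℝ) / N : ℝ) : ℂ) fun i => (w i : ℂ))) (bo (Fin.tail ws) ρ) :=
      fun d hd => (hsl d hd).cont.integrableOn_compact (compact_bo _ _)
    have h3 : ‖(∑ d ∈ s, ∑ k ∈ Fintype.piFinset (fun i => lt1 (Fin.tail ws i) ρ N),
          F (Fin.cons (((d : ℝ) / N : ℝ) : ℂ) fun i => (((k i : ℝ) / N : ℝ) : ℂ))) -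
        ∑ d ∈ s, (N : ℂ) ^ n * ∫ w in bo (Fin.tail ws) ρ,
          F (Fin.cons (((d : ℝ) / N : ℝ) : ℂ) fun i => (w i : ℂ))‖ ≤
        (ws 0 + ρ + 2) * C₁ * M / (N : ℝ) ^ K := by
      rw [← sum_sub_distrib]
      calc _ ≤ ∑ d ∈ s, C₁ * M / (N : ℝ) ^ (K + 1) :=
            norm_sum_le_of_le _ fun d hd => hN₁ _ M hM (hsl d hd)
        _ = s.card * (C₁ * M / (N : ℝ) ^ (K + 1)) := by rw [sum_const, nsmul_eq_mul]
        _ ≤ ((ws 0 + ρ + 2) * N) * (C₁ * M / (N : ℝ) ^ (K + 1)) :=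
            mul_le_mul_of_nonneg_right (card_lt1 hN0 hws0) (by positivity)
        _ = (ws 0 + ρ + 2) * C₁ * M / (N : ℝ) ^ K := by
            rw [pow_succ]
            field_simp
    have h4 : (∑ d ∈ s, (N : ℂ) ^ n * ∫ w in bo (Fin.tail ws) ρ,
          F (Fin.cons (((d : ℝ) / N : ℝ) : ℂ) fun i => (w i : ℂ))) -
        (N : ℂ) ^ (n + 1) * (∫ w in bo ws ρ, g w) =
        (N : ℂ) ^ n * ∫ w in bo (Fin.tail ws) ρ,
          ((∑ d ∈ s, F (Fin.cons (((d : ℝ) / N : ℝ) : ℂ) fun i => (w i : ℂ))) -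
            (N : ℂ) * ∫ x in (ws 0 - ρ)..(ws 0 + ρ), g (Fin.cons x w)) := by
      rw [hIeq, integral_sub (integrable_finsetSum _ hB) (hI.const_mul _),
        integral_finsetSum _ hB, integral_const_mul, ← mul_sum]
      ring
    have h5 : ∀ w ∈ bo (Fin.tail ws) ρ,
        ‖(∑ d ∈ s, F (Fin.cons (((d : ℝ) / N : ℝ) : ℂ) fun i => (w i : ℂ))) -
            (N : ℂ) * ∫ x in (ws 0 - ρ)..(ws 0 + ρ), g (Fin.cons x w)‖ ≤
          |C₂| * M / (N : ℝ) ^ (K + n) := by
      intro w hw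
      have h6 := h₂ (fun z : ℂ => F (Fin.cons z fun i => (w i : ℂ))) (1 / N) M s (by positivity)
        hε hM (by
          intro d
          rw [hs, mem_lt1 hN0]
          rw [show 1 / (N : ℝ) * d = (d : ℝ) / N by ring]) (by
          intro x y hx hy
          have hw' : ∀ j : Fin (n + 1), |(Fin.cons x w : Fin (n + 1) → ℝ) j - ws j| < 2 * ρ := by
            rw [Fin.forall_fin_succ]
            refine ⟨?_, fun j => ?_⟩
            · simpa using hx
            · simpa [Fin.tail] using lt_of_le_of_lt (hw j) (by linarith)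
          have hy' : |y| < 1 / √(N : ℝ) := by
            rwa [Real.sqrt_div zero_le_one, Real.sqrt_one] at hy
          have h7 := hF.bd (Fin.cons x w) hw' 0 y hy'
          rw [cast_cons] at h7
          simp only [Fin.cons_zero, Fin.update_cons_zero] at h7
          refine ⟨h7.1, h7.2.trans ?_⟩
          refine mul_le_mul_of_nonneg_left (Real.exp_le_exp.mpr ?_) hM
          rw [Fin.sum_univ_succ]
          simp only [Fin.cons_zero, Fin.cons_succ]
          have h8 : 0 ≤ c * N * ∑ j : Fin n, (w j - ws j.succ) ^ 2 := by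
            have : 0 ≤ ∑ j : Fin n, (w j - ws j.succ) ^ 2 := sum_nonneg fun j _ => sq_nonneg _
            positivity
          have h9 : -c * (x - ws 0) ^ 2 / (1 / (N : ℝ)) = -(c * N * (x - ws 0) ^ 2) := by
            field_simp
          rw [h9, mul_add]
          linarith)
      have h10 : (∑ d ∈ s, F (Fin.cons (((1 / (N : ℝ)) * d : ℝ) : ℂ) fun i => (w i : ℂ))) =
          ∑ d ∈ s, F (Fin.cons (((d : ℝ) / N : ℝ) : ℂ) fun i => (w i : ℂ)) := by
        refine sum_congr rfl fun d _ => ?_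
        rw [show 1 / (N : ℝ) * d = (d : ℝ) / N by ring]
      have h11 : (((1 / (N : ℝ) : ℝ) : ℂ))⁻¹ = N := by
        push_cast
        simp
      simp only [hgcons]
      rw [h10, h11] at h6
      refine h6.trans ?_
      have h12 : C₂ * M * (1 / (N : ℝ)) ^ (K + n) = C₂ * (M / (N : ℝ) ^ (K + n)) := by
        rw [one_div, inv_pow]
        ring
      rw [h12, mul_div_assoc]
      exact mul_le_mul_of_nonneg_right (le_abs_self _) (by positivity)
    have h13 : ‖(N : ℂ) ^ n * ∫ w in bo (Fin.tail ws) ρ,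
          ((∑ d ∈ s, F (Fin.cons (((d : ℝ) / N : ℝ) : ℂ) fun i => (w i : ℂ))) -
            (N : ℂ) * ∫ x in (ws 0 - ρ)..(ws 0 + ρ), g (Fin.cons x w))‖ ≤
        |C₂| * V * M / (N : ℝ) ^ K := by
      rw [norm_mul, norm_pow, Complex.norm_natCast]
      have h14 := norm_setIntegral_le_of_norm_le_const (μ := (volume : Measure (Fin n → ℝ)))
        (compact_bo (Fin.tail ws) ρ).measure_lt_top h5
      calc _ ≤ (N : ℝ) ^ n * (|C₂| * M / (N : ℝ) ^ (K + n) * V) :=
            mul_le_mul_of_nonneg_left h14 (by positivity)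
        _ = |C₂| * V * M / (N : ℝ) ^ K := by
            rw [pow_add]
            field_simp
    rw [hA]
    calc _ = ‖((∑ d ∈ s, ∑ k ∈ Fintype.piFinset (fun i => lt1 (Fin.tail ws i) ρ N),
          F (Fin.cons (((d : ℝ) / N : ℝ) : ℂ) fun i => (((k i : ℝ) / N : ℝ) : ℂ))) -
        ∑ d ∈ s, (N : ℂ) ^ n * ∫ w in bo (Fin.tail ws) ρ,
          F (Fin.cons (((d : ℝ) / N : ℝ) : ℂ) fun i => (w i : ℂ))) +
        ((∑ d ∈ s, (N : ℂ) ^ n * ∫ w in bo (Fin.tail ws) ρ,
          F (Fin.cons (((d : ℝ) / N : ℝ) : ℂ) fun i => (w i : ℂ))) -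
        (N : ℂ) ^ (n + 1) * (∫ w in bo ws ρ, g w))‖ := by
          congr 1
          ring
      _ ≤ (ws 0 + ρ + 2) * C₁ * M / (N : ℝ) ^ K + |C₂| * V * M / (N : ℝ) ^ K := by
          refine (norm_add_le _ _).trans (add_le_add h3 ?_)
          rw [h4]
          exact h13
      _ = ((ws 0 + ρ + 2) * C₁ + |C₂| * V) * M / (N : ℝ) ^ K := by ring

/-- the statement `S_MLT` -/
theorem mlt : Pool.Agent.Y472.K.S_MLT := by
  intro ι _ _ ws ρ c hρ hws hc K
  set n := Fintype.card ι with hn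
  set e : Fin n ≃ ι := (Fintype.equivFin ι).symm with he
  obtain ⟨C, hC, h⟩ := mltFin n (fun i => ws (e i)) ρ c hρ (fun i => hws (e i)) hc K
  refine ⟨C, ?_⟩
  filter_upwards [h] with N hN F M hM hcont hbd
  -- transport of points
  have hup : ∀ (v : Fin n → ℂ) (i : Fin n) (z : ℂ),
      (fun j => (Function.update v i z) (e.symm j)) =
        Function.update (fun j => v (e.symm j)) (e i) z := by
    intro v i z
    funext j
    by_cases hj : j = e i
    · subst hj
      simp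
    · have : e.symm j ≠ i := fun h => hj (by rw [← h, Equiv.apply_symm_apply])
      rw [Function.update_of_ne this, Function.update_of_ne hj]
  have hH : Hy (fun i => ws (e i)) ρ c N (fun v : Fin n → ℂ => F fun j => v (e.symm j)) M := by
    constructor
    · have h1 : ContinuousOn (fun v : Fin n → ℝ =>
          (fun w : ι → ℝ => F fun i => (w i : ℂ)) (fun j => v (e.symm j)))
          (bo (fun i => ws (e i)) ρ) := by
        refine hcont.comp (f := fun (v : Fin n → ℝ) (j : ι) => v (e.symm j)) ?_ ?_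
        · exact (continuous_pi fun j => continuous_apply (e.symm j)).continuousOn
        · intro v hv i
          have := hv (e.symm i)
          simpa using this
      exact h1
    · intro w hw i y hy
      have hw' : ∀ j : ι, |w (e.symm j) - ws j| < 2 * ρ := by
        intro j
        have := hw (e.symm j)
        simpa using this
      have h1 := hbd (fun j => w (e.symm j)) hw' (e i) y hy
      have h2 : ∀ z : ℂ, (fun j => (Function.update (fun i => ((w i : ℝ) : ℂ)) i z) (e.symm j)) =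
        Function.update (fun j => ((w (e.symm j) : ℝ) : ℂ)) (e i) z := fun z =>
          hup (fun i => ((w i : ℝ) : ℂ)) i z
      simp only [h2]
      have h3 : ∑ j : ι, (w (e.symm j) - ws j) ^ 2 = ∑ j : Fin n, (w j - ws (e j)) ^ 2 := by
        rw [← e.sum_comp]
        simp
      rw [h3] at h1
      simpa using h1
  have h1 := hN (fun v : Fin n → ℂ => F fun j => v (e.symm j)) M hM hH
  -- the sums
  have hsum : (∑ k ∈ Pool.Agent.Y472.K.nrs ws ρ N, F fun i => (((k i : ℝ) / N : ℝ) : ℂ)) =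
      ∑ k ∈ Fintype.piFinset (fun i => lt1 (ws (e i)) ρ N),
        F fun j => (((k (e.symm j) : ℝ) / N : ℝ) : ℂ) := by
    unfold Pool.Agent.Y472.K.nrs
    refine sum_nbij' (fun k i => k (e i)) (fun k j => k (e.symm j)) ?_ ?_ ?_ ?_ ?_
    · intro k hk
      rw [Fintype.mem_piFinset] at hk ⊢
      exact fun i => hk (e i)
    · intro k hk
      rw [Fintype.mem_piFinset] at hk ⊢
      intro j
      have := hk (e.symm j)
      simpa [lt1] using this
    · intro k _
      funext j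
      simp
    · intro k _
      funext j
      simp
    · intro k _
      congr 1
      funext j
      simp
  -- the integrals
  have hint : (∫ w in {w : ι → ℝ | ∀ i, |w i - ws i| ≤ ρ}, F fun i => (w i : ℂ)) =
      ∫ w in bo (fun i => ws (e i)) ρ, F fun j => (w (e.symm j) : ℂ) := by
    have hmp := volume_measurePreserving_piCongrLeft (fun _ : ι => ℝ) e
    have hap : ∀ w : Fin n → ℝ,
        (MeasurableEquiv.piCongrLeft (fun _ : ι => ℝ) e) w = fun j => w (e.symm j) := by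
      intro w
      funext j
      obtain ⟨i, rfl⟩ := e.surjective j
      rw [MeasurableEquiv.coe_piCongrLeft, Equiv.piCongrLeft_apply_apply]
      simp
    have h2 := hmp.setIntegral_preimage_emb (MeasurableEquiv.measurableEmbedding _)
      (fun w : ι → ℝ => F fun i => (w i : ℂ)) {w : ι → ℝ | ∀ i, |w i - ws i| ≤ ρ}
    rw [← h2]
    have h3 : (MeasurableEquiv.piCongrLeft (fun _ : ι => ℝ) e) ⁻¹'
        {w : ι → ℝ | ∀ i, |w i - ws i| ≤ ρ} = bo (fun i => ws (e i)) ρ := by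
      ext w
      simp only [Set.mem_preimage, hap, bo, Set.mem_ofPred_eq]
      constructor
      · intro h i
        simpa using h (e i)
      · intro h j
        simpa using h (e.symm j)
    rw [h3]
    simp only [hap]
  rw [hsum, hint]
  exact h1

end Pool.Agent.Y849.TKX
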